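import Mathlib

set_option autoImplicit false

open Filter Topology Function Set Complex

namespace Pool.Agent.Results.MP_e36abb_an.No

noncomputable def al : ℝ := Real.arccos (-2 / 3) / (2 * Real.pi)
noncomputable def e : ℂ := ⟨-2 / 3, √5 / 3⟩
noncomputable def l : ℂ := ⟨-2 / 3, -√5 / 3⟩

theorem s5 : √5 * √5 = 5 := Real.mul_self_sqrt (by norm_num)

theorem le1 : l * e = 1 := by
  apply Complex.ext <;> simp [l, e] <;> nlinarith [s5]

theorem lep (n : ℕ) : l ^ n * e ^ n = 1 := by rw [← mul_pow, le1, one_pow]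

theorem ca : Real.cos (2 * Real.pi * al) = -2 / 3 := by
  rw [al, mul_div_cancel₀ _ (by positivity), Real.cos_arccos] <;> norm_num

theorem ee : exp (2 * Real.pi * I * al) = e := by
  have : 2 * Real.pi * I * al = ((2 * Real.pi * al : ℝ) : ℂ) * I := by push_cast; ring
  rw [this]
  apply Complex.ext
  · rw [exp_ofReal_mul_I_re, ca]; rfl
  · rw [exp_ofReal_mul_I_im, al, mul_div_cancel₀ _ (by positivity), Real.sin_arccos]
    rw [show (1 : ℝ) - (-2 / 3) ^ 2 = 5 / 3 ^ 2 by norm_num, Real.sqrt_div' _ (by norm_num),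
      Real.sqrt_sq (by norm_num)]
    rfl

theorem een (n : ℕ) : exp (2 * Real.pi * I * al * n) = e ^ n := by
  rw [mul_comm, exp_nat_mul, ee]

theorem irr : Irrational al := by
  rintro ⟨r, hr⟩
  have := niven (θ := 2 * Real.pi * al) ⟨2 * r, by rw [← hr]; push_cast; ring⟩
    ⟨-2 / 3, by rw [ca]; norm_num⟩
  rw [ca] at this
  norm_num at this

theorem ne1 (n : ℕ) : ‖e ^ n‖ = 1 := by
  have : 2 * Real.pi * I * al * n = ((2 * Real.pi * al * n : ℝ) : ℂ) * I := by push_cast; ring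
  rw [← een, this, norm_exp_ofReal_mul_I]

theorem relt {n : ℕ} (h : 0 < n) : (e ^ n).re < 1 := by
  refine lt_of_le_of_ne ((re_le_norm _).trans (ne1 n).le) fun k => ?_
  have : 2 * Real.pi * I * al * n = ((2 * Real.pi * al * n : ℝ) : ℂ) * I := by push_cast; ring
  rw [← een, this, exp_ofReal_mul_I_re, Real.cos_eq_one_iff] at k
  obtain ⟨m, hm⟩ := k
  refine (irr.mul_natCast h.ne').ne_int m ?_
  have := Real.pi_pos
  exact mul_left_cancel₀ (a := 2 * Real.pi) (by positivity) (by linarith)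

theorem dens {q : ℂ} (hq : ‖q‖ = 1 / 2) {U : Set ℂ} (hU : U ∈ 𝓝 q) (K : ℕ) :
    ∃ j ≥ K, e ^ j / 2 ∈ U := by
  have d : DenseRange (· • (al : AddCircle (1 : ℝ)) : ℤ → _) :=
    AddCircle.denseRange_zsmul_coe_iff.2 (by simpa using irr)
  let x : AddCircle (1 : ℝ) := ((arg q / (2 * Real.pi) : ℝ) : AddCircle (1 : ℝ))
  have c : MapClusterPt x atTop (· • (al : AddCircle (1 : ℝ)) : ℕ → _) :=
    mapClusterPt_atTop_nsmul_iff_mem_topologicalClosure_zmultiples.2 (d x)
  have f : Continuous fun y : AddCircle (1 : ℝ) => fourier 1 y / 2 := by fun_prop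
  have g : fourier 1 x / 2 = q := by
    have := Real.pi_pos
    rw [fourier_coe_apply]
    conv_rhs => rw [← norm_mul_exp_arg_mul_I q, hq]
    have : (Real.pi : ℂ) ≠ 0 := by exact_mod_cast this.ne'
    rw [show 2 * Real.pi * I * (1 : ℤ) * (arg q / (2 * Real.pi) : ℝ) / (1 : ℝ) = arg q * I by
      push_cast; field_simp]
    push_cast; ring
  obtain ⟨j, h1, h2⟩ := ((mapClusterPt_iff_frequently.1 c _
    (f.continuousAt.preimage_mem_nhds (g ▸ hU))).and_eventually (eventually_ge_atTop K)).exists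
  refine ⟨j, h2, ?_⟩
  rw [mem_preimage, ← AddCircle.coe_nsmul, fourier_coe_apply] at h1
  convert h1 using 2
  rw [← een]
  congr 1
  simp; ring

noncomputable def T (u : ℂ) : ℂ := if u.re < 1 / 2 then l * u else l * (u - 2)

def Adm (n : ℕ) (u : ℂ) : Prop := ∀ k < n, (T^[k] u).re ≠ 1 / 2

theorem loc (n : ℕ) (u : ℂ) (h : Adm n u) : ∀ᶠ v in 𝓝 u, T^[n] v = T^[n] u + l ^ n * (v - u) ∧
    Adm n v ∧ ∀ k < n, ((T^[k] v).re < 1 / 2 ↔ (T^[k] u).re < 1 / 2) := by
  induction n with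
  | zero => simp [Adm]
  | succ n ih =>
    have c : Tendsto (fun v => (T^[n] u + l ^ n * (v - u)).re) (𝓝 u) (𝓝 (T^[n] u).re) := by
      have : Continuous fun v => (T^[n] u + l ^ n * (v - u)).re := by fun_prop
      simpa using this.tendsto u
    have : ∀ᶠ v in 𝓝 u, (T^[n] u + l ^ n * (v - u)).re ≠ 1 / 2 ∧
        ((T^[n] u + l ^ n * (v - u)).re < 1 / 2 ↔ (T^[n] u).re < 1 / 2) := by
      rcases (h n n.lt_succ_self).lt_or_gt with k | k
      · exact (c.eventually_lt_const k).mono fun v hv => ⟨hv.ne, iff_of_true hv k⟩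
      · exact (c.eventually_const_lt k).mono fun v hv => ⟨hv.ne', iff_of_false hv.not_gt k.not_gt⟩
    filter_upwards [ih fun k hk => h k (by omega), this] with v ⟨h1, h2, h3⟩ ⟨h4, h5⟩
    rw [← h1] at h4 h5
    refine ⟨?_, fun k hk => ?_, fun k hk => ?_⟩
    · rw [iterate_succ_apply', iterate_succ_apply', T, T]
      simp only [h5]
      rw [h1]
      split_ifs <;> ring
    · rcases (Nat.lt_succ_iff_lt_or_eq.1 hk) with k | rfl
      exacts [h2 _ k, h4]
    · rcases (Nat.lt_succ_iff_lt_or_eq.1 hk) with k | rfl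
      exacts [h3 _ k, h5]

theorem rot (j i : ℕ) (h : i ≤ j) : T^[i] (e ^ j / 2) = e ^ (j - i) / 2 := by
  induction i with
  | zero => rfl
  | succ i ih =>
    have := relt (n := j - i) (by omega)
    rw [iterate_succ_apply', ih (by omega), T, if_pos (by simp; linarith),
      show j - i = (j - (i + 1)) + 1 by omega, pow_succ]
    linear_combination e ^ (j - (i + 1)) / 2 * le1

theorem key {q : ℂ} (hq : ‖q‖ = 1 / 2) {U : Set ℂ} (hU : U ∈ 𝓝 q) (K : ℕ) :
    ∃ v ∈ U, ∃ j ≥ K, (∀ i < j, (T^[i] v).re < 1 / 2) ∧ 1 / 2 < (T^[j] v).re ∧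
      Adm (j + 3) v ∧ ‖T^[j + 3] v‖ = 1 / 2 := by
  obtain ⟨j, h1, h2⟩ := dens hq (interior_mem_nhds.2 hU) K
  have r : ∀ i < j, (T^[i] (e ^ j / 2)).re < 1 / 2 := fun i hi => by
    have := relt (n := j - i) (by omega)
    rw [rot j i hi.le]; simp; linarith
  let H : ℝ → ℂ := fun t => e ^ 2 * (1 - exp ((-t : ℝ) * I)) / 2
  have c : Tendsto (fun t => e ^ j / 2 + e ^ j * H t) (𝓝[>] 0) (𝓝 (e ^ j / 2)) := by
    have : Continuous fun t => e ^ j / 2 + e ^ j * H t := by fun_prop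
    simpa [H] using (this.tendsto 0).mono_left nhdsWithin_le_nhds
  have c2 : ∀ k : ℕ, ∀ᶠ t in 𝓝[>] 0, -1 / 2 < (l ^ k * H t).re := fun k => by
    have : Continuous fun t => (l ^ k * H t).re := by fun_prop
    exact ((this.tendsto 0).mono_left nhdsWithin_le_nhds).eventually_const_lt (by simp [H]; norm_num)
  obtain ⟨t, ⟨⟨a1, a2, a3⟩, a4⟩, a5, a6, a7⟩ := ((c.eventually ((loc j _ fun i hi => (r i hi).ne).and
    (mem_of_superset (isOpen_interior.mem_nhds h2) interior_subset))).and ((c2 1).and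
    ((c2 2).and (Ioo_mem_nhdsGT one_pos)))).exists
  set v := e ^ j / 2 + e ^ j * H t
  have b0 : T^[j] v = 1 / 2 + H t := by
    rw [a1, rot j j le_rfl, Nat.sub_self]
    linear_combination H t * lep j
  have p0 : 1 / 2 < (T^[j] v).re := by
    have := Real.sin_gt_sub_cube a7.1
    have := Real.one_sub_sq_div_two_le_cos (x := t)
    have : 2 < √5 := Real.lt_sqrt_of_sq_lt (by norm_num)
    have h3 : t ^ 2 < t := by nlinarith [a7.1, a7.2]
    have h4 : t ^ 3 < t := by nlinarith [a7.1, a7.2]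
    have h5 : t / 2 < Real.sin t := by linarith [a7.1]
    have : 0 < (H t).re := by
      simp only [H, div_ofNat_re, mul_re, sub_re, sub_im, exp_ofReal_mul_I_re, exp_ofReal_mul_I_im,
        Real.cos_neg, Real.sin_neg, sq, mul_im, e, one_re, one_im]
      nlinarith [s5, a7.1]
    rw [b0]; simpa using this
  have b1 : T^[j + 1] v = (⟨1, √5 / 2⟩ : ℂ) + l ^ 1 * H t := by
    have : l * (-3 / 2) = ⟨1, √5 / 2⟩ := by apply Complex.ext <;> simp [l] <;> ring
    rw [iterate_succ_apply', T, if_neg p0.not_gt, b0, ← this]; ring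
  have p1 : 1 / 2 < (T^[j + 1] v).re := by rw [b1, add_re]; linarith
  have b2 : T^[j + 2] v = 3 / 2 + l ^ 2 * H t := by
    have : l * (⟨1, √5 / 2⟩ - 2) = 3 / 2 := by
      apply Complex.ext <;> simp [l] <;> nlinarith [s5]
    rw [iterate_succ_apply', T, if_neg p1.not_gt, b1, ← this]; ring
  have p2 : 1 / 2 < (T^[j + 2] v).re := by
    have : (3 / 2 : ℂ).re = 3 / 2 := by norm_num
    rw [b2, add_re]; linarith
  have r' : ∀ i < j, (T^[i] v).re < 1 / 2 := fun i hi => (a3 i hi).2 (r i hi)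
  refine ⟨v, a4, j, h1, r', p0, fun k hk => ?_, ?_⟩
  · rcases (by omega : k < j ∨ k = j ∨ k = j + 1 ∨ k = j + 2) with h | rfl | rfl | rfl
    exacts [(r' k h).ne, p0.ne', p1.ne', p2.ne']
  · have nl : ‖l‖ = 1 := by
      have := congrArg norm le1
      rwa [norm_mul, ← pow_one e, ne1, mul_one, norm_one] at this
    rw [iterate_succ_apply', T, if_neg p2.not_gt, b2,
      show 3 / 2 + l ^ 2 * H t - 2 = -exp ((-t : ℝ) * I) / 2 by
        linear_combination (1 - exp ((-t : ℝ) * I)) / 2 * lep 2,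
      norm_mul, nl, norm_div, norm_neg, norm_exp_ofReal_mul_I]
    simp

def G (K : ℕ) : Set ℂ := {v | ∃ n, ∃ j ≥ K, Adm (n + j + 1) v ∧
  (∀ i < j, (T^[n + i] v).re < 1 / 2) ∧ ¬(T^[n + j] v).re < 1 / 2}

def Ga : Set ℂ := {v | ∃ n, Adm n v ∧ ‖T^[n] v‖ = 1 / 2}

theorem ex : ∃ u, ∀ K, u ∈ G K := by
  have : CompleteSpace (closure Ga) := isClosed_closure.completeSpace_coe
  have : Nonempty (closure Ga) := ⟨⟨1 / 2, subset_closure ⟨0, by simp [Adm], by simp⟩⟩⟩
  have := dense_iInter_of_isOpen (X := closure Ga) (f := fun K => Subtype.val ⁻¹' G K)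
    (fun K => IsOpen.preimage continuous_subtype_val (isOpen_iff_mem_nhds.2 ?_)) fun K => ?_
  · obtain ⟨u, hu⟩ := this.nonempty
    exact ⟨u, fun K => mem_iInter.1 hu K⟩
  · rintro v ⟨n, j, h1, h2, h3, h4⟩
    filter_upwards [loc _ v h2] with w ⟨_, k2, k3⟩
    exact ⟨n, j, h1, k2, fun i hi => (k3 _ (by omega)).2 (h3 i hi),
      fun k => h4 ((k3 _ (by omega)).1 k)⟩
  · rw [Subtype.dense_iff]
    refine closure_minimal ?_ isClosed_closure
    rintro x ⟨n, h1, h2⟩
    refine mem_closure_iff_nhds.2 fun U hU => ?_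
    have c : Tendsto (fun v => x + e ^ n * (v - T^[n] x)) (𝓝 (T^[n] x)) (𝓝 x) := by
      have : Continuous fun v => x + e ^ n * (v - T^[n] x) := by fun_prop
      simpa using this.tendsto (T^[n] x)
    obtain ⟨v, ⟨⟨a1, a2, -⟩, a3⟩, j, b1, b2, b3, b4, b5⟩ :=
      key h2 (c.eventually ((loc n x h1).and hU)) K
    set y := x + e ^ n * (v - T^[n] x)
    have b0 : T^[n] y = v := by
      rw [a1]; linear_combination (v - T^[n] x) * lep n
    have b : ∀ i, T^[n + i] y = T^[i] v := fun i => by rw [add_comm, iterate_add_apply, b0]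
    have A : Adm (n + (j + 3)) y := fun k hk => by
      rcases lt_or_ge k n with h | h
      · exact a2 k h
      · obtain ⟨i, rfl⟩ := Nat.exists_eq_add_of_le h
        rw [b]; exact b4 i (by omega)
    refine ⟨y, a3, ⟨y, subset_closure ⟨_, A, by rw [b, b5]⟩⟩,
      ⟨n, j, b1, fun k hk => A k (by omega), fun i hi => ?_, ?_⟩, rfl⟩
    · show (T^[n + i] y).re < _
      rw [b]; exact b2 i hi
    · show ¬(T^[n + j] y).re < _
      rw [b]; exact b3.not_gt

theorem result : ∃ (α : ℝ) (z : ℕ → ℂ) (ε : ℕ → ℝ), Irrational α ∧ 0 < α ∧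
    (∀ n, ε n = 1 ∨ ε n = -1) ∧
    (∀ n : ℕ, z (n + 1) = z n + ε n * exp (2 * Real.pi * I * α * n)) ∧
    (∀ n : ℕ, ‖z n + ε n * exp (2 * Real.pi * I * α * n)‖ <
      ‖z n - ε n * exp (2 * Real.pi * I * α * n)‖) ∧
    ¬∃ N p : ℕ, 1 ≤ p ∧ ∀ n ≥ N, ε (n + p) = ε n := by
  obtain ⟨u, hu⟩ := ex
  let w : ℂ := ⟨-1 / 2, -√5 / 10⟩
  have hw : w * e = w + 1 := by
    apply Complex.ext <;> simp [w, e] <;> nlinarith [s5]
  refine ⟨al, fun n => (T^[n] u + w) * e ^ n, fun n => if (T^[n] u).re < 1 / 2 then 1 else -1,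
    irr, div_pos (Real.arccos_pos.2 (by norm_num)) (by positivity), fun n => ?_, fun n => ?_,
    fun n => ?_, ?_⟩
  · simp only
    split_ifs <;> simp
  · simp only [een, iterate_succ_apply', T]
    split_ifs <;> push_cast
    · linear_combination e ^ n * hw + e ^ n * T^[n] u * le1
    · linear_combination e ^ n * hw + e ^ n * (T^[n] u - 2) * le1
  · obtain ⟨m, j, h1, h2, -⟩ := hu n
    have := h2 n (by omega)
    simp only [een]
    rw [← add_mul, ← sub_mul, norm_mul, norm_mul, ne1, mul_one, mul_one,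
      ← sq_lt_sq₀ (norm_nonneg _) (norm_nonneg _), Complex.sq_norm, Complex.sq_norm, normSq_apply,
      normSq_apply]
    split_ifs with h
    · simp [w]; linarith
    · have := lt_of_le_of_ne (not_lt.1 h) this.symm
      simp [w]; linarith
  · rintro ⟨N, p, hp, h⟩
    obtain ⟨m, j, h1, -, h3, h4⟩ := hu (N + p)
    have := h (m + (j - p)) (by omega)
    simp only [if_pos (h3 (j - p) (by omega)), show m + (j - p) + p = m + j by omega,
      if_neg h4] at this
    norm_num at this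

end Pool.Agent.Results.MP_e36abb_an.No
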